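import Mathlib

set_option autoImplicit false
set_option linter.unusedSimpArgs false

namespace Pool.Agent.Results.MP_a217de_gt.PolyhedraLocal

open Set Filter Topology

/-- The point `p` is `C_a`-unstable in `M`. -/
def UnstableWrt (M : Type) [TopologicalSpace M] (p : M) (C : Type) [TopologicalSpace C]
    (a : C) : Prop :=
  ∃ F : M × C → M, Continuous F ∧ (∀ z, F (z, a) = z) ∧ ∀ z c, c ≠ a → F (z, c) ≠ p

/-- The point `p` is pseudo-unstable in `M`: it is `C_a`-unstable in `M` for some nondegenerate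
continuum (compact connected metric space) `C` and some `a ∈ C`. -/
def PseudoUnstable (M : Type) [TopologicalSpace M] (p : M) : Prop :=
  ∃ (C : Type) (_ : MetricSpace C) (_ : CompactSpace C) (_ : ConnectedSpace C) (_ : Nontrivial C)
    (a : C), UnstableWrt M p C a

/-- A polyhedron: the underlying space of a finite connected simplicial complex. -/
def IsPolyhedron (X : Type) [TopologicalSpace X] : Prop :=
  ∃ (n : ℕ) (K : Geometry.SimplicialComplex ℝ (EuclideanSpace ℝ (Fin n))),
    K.faces.Finite ∧ IsConnected K.space ∧ Nonempty (X ≃ₜ K.space)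

/-- Locally equiconnected spaces. -/
def LEC (X : Type) [TopologicalSpace X] : Prop :=
  ∃ (D : Set (X × X)) (lam : (X × X) × ℝ → X), IsOpen D ∧ (∀ x, (x, x) ∈ D) ∧
    ContinuousOn lam (D ×ˢ univ) ∧ (∀ p ∈ D, lam (p, 0) = p.1) ∧ (∀ p ∈ D, lam (p, 1) = p.2) ∧
    ∀ x t, lam ((x, x), t) = x

/-- The local property of a point. -/
def Loc (X : Type) [TopologicalSpace X] (x : X) : Prop :=
  ∀ W ∈ 𝓝 x, ∃ g : X → X, Continuous g ∧ (∀ z, g z ≠ x) ∧ (∀ z, z ∉ W → g z = z) ∧
    ∀ z ∈ W, g z ∈ W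

section metric

variable {X : Type} [MetricSpace X] [CompactSpace X]

/-- Uniform smallness of the equiconnecting map. -/
theorem small (D : Set (X × X)) (lam : (X × X) × ℝ → X) (hD : IsOpen D)
    (hdiag : ∀ x, (x, x) ∈ D) (hc : ContinuousOn lam (D ×ˢ univ))
    (hx : ∀ x t, lam ((x, x), t) = x) {ε : ℝ} (hε : 0 < ε) :
    ∃ δ > 0, ∀ z w : X, dist z w < δ → (z, w) ∈ D ∧ ∀ t ∈ Icc (0 : ℝ) 1,
      dist (lam ((z, w), t)) z < ε := by
  have h1 : {p : X × X | p ∈ D ∧ ∀ t ∈ Icc (0 : ℝ) 1, dist (lam (p, t)) p.1 < ε} ∈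
      uniformity X := by
    rw [← nhdsSet_diagonal_eq_uniformity, mem_nhdsSet_iff_forall]
    rintro ⟨z, w⟩ hzw
    obtain rfl : z = w := hzw
    have h2 : ∀ᶠ p in 𝓝 ((z, z) : X × X), ∀ t ∈ Icc (0 : ℝ) 1, dist (lam (p, t)) p.1 < ε := by
      apply isCompact_Icc.eventually_forall_of_forall_eventually
      intro t _
      have hopen : D ×ˢ (univ : Set ℝ) ∈ 𝓝 (((z, z), t) : (X × X) × ℝ) :=
        (hD.prod isOpen_univ).mem_nhds ⟨hdiag z, mem_univ _⟩
      have hct : ContinuousAt lam ((z, z), t) := hc.continuousAt hopen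
      have hct2 : ContinuousAt (fun q : (X × X) × ℝ => dist (lam q) q.1.1) ((z, z), t) :=
        hct.dist (continuousAt_fst.fst)
      have h0 : dist (lam ((z, z), t)) z < ε := by rw [hx, dist_self]; exact hε
      exact hct2.eventually_lt continuousAt_const h0
    filter_upwards [hD.mem_nhds (hdiag z), h2] with p hp1 hp2 using ⟨hp1, hp2⟩
  obtain ⟨δ, hδ, h⟩ := Metric.mem_uniformity_dist.1 h1
  exact ⟨δ, hδ, fun z w hzw => h hzw⟩

/-- Step A: pseudo-instability in a compact locally equiconnected metric space gives the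
local property. -/
theorem loc_of_pseudoUnstable (hL : LEC X) (x : X) (h : PseudoUnstable X x) : Loc X x := by
  obtain ⟨C, _, _, _, _, a, F, hF, hFa, hFx⟩ := h
  obtain ⟨D, lam, hD, hdiag, hc, h0, h1, hxx⟩ := hL
  intro W hW
  obtain ⟨R, hR, hball⟩ := Metric.mem_nhds_iff.1 hW
  obtain ⟨δ, hδ, hsm⟩ := small D lam hD hdiag hc hxx (ε := R / 4) (by positivity)
  have hev : ∀ᶠ c in 𝓝 a, ∀ z ∈ (univ : Set X), dist z (F (z, c)) < δ := by
    apply isCompact_univ.eventually_forall_of_forall_eventually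
    intro z _
    have hcont : Continuous (fun p : C × X => dist p.2 (F (p.2, p.1))) := by fun_prop
    have hval : dist z (F (z, a)) < δ := by rw [hFa, dist_self]; exact hδ
    exact hcont.continuousAt.eventually_lt continuousAt_const hval
  obtain ⟨c, hc1, hc2⟩ := ((hev.filter_mono nhdsWithin_le_nhds).and
    (self_mem_nhdsWithin : {a}ᶜ ∈ 𝓝[≠] a)).exists
  have hca : c ≠ a := hc2
  have hφ0 : Continuous (fun z : X => max 0 (min 1 (2 - 4 * dist z x / R))) := by fun_prop
  obtain ⟨φ, hφdef⟩ : ∃ φ : X → ℝ, φ = fun z : X => max 0 (min 1 (2 - 4 * dist z x / R)) :=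
    ⟨_, rfl⟩
  have hφ : Continuous φ := by rw [hφdef]; exact hφ0
  have hφI : ∀ z, φ z ∈ Icc (0 : ℝ) 1 := by
    intro z
    rw [hφdef]
    exact ⟨le_max_left _ _, max_le zero_le_one (min_le_left _ _)⟩
  have hφ1 : ∀ z, dist z x ≤ R / 4 → φ z = 1 := by
    intro z hz
    have h4 : 4 * dist z x / R ≤ 1 := by
      rw [div_le_one hR]; linarith
    rw [hφdef]
    simp only
    rw [min_eq_left (by linarith), max_eq_right zero_le_one]
  have hφz : ∀ z, R / 2 ≤ dist z x → φ z = 0 := by
    intro z hz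
    have h4 : 2 ≤ 4 * dist z x / R := by
      rw [le_div_iff₀ hR]; linarith
    rw [hφdef]
    simp only
    rw [min_eq_right (by linarith), max_eq_left (by linarith)]
  have hmem : ∀ z, (z, F (z, c)) ∈ D := fun z => (hsm z _ (hc1 z (mem_univ _))).1
  have hdist : ∀ z, dist (lam ((z, F (z, c)), φ z)) z < R / 4 := fun z =>
    (hsm z _ (hc1 z (mem_univ _))).2 _ (hφI z)
  refine ⟨fun z => lam ((z, F (z, c)), φ z), ?_, ?_, ?_, ?_⟩
  · have hpair : Continuous (fun z : X => (((z, F (z, c)), φ z) : (X × X) × ℝ)) := by fun_prop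
    exact hc.comp_continuous hpair (fun z => ⟨hmem z, mem_univ _⟩)
  · intro z
    by_cases hz : dist z x ≤ R / 4
    · simp only [hφ1 z hz, h1 _ (hmem z)]
      exact hFx z c hca
    · intro heq
      have := hdist z
      simp only at heq
      rw [heq, dist_comm] at this
      linarith
  · intro z hz
    have h3 : R / 2 ≤ dist z x := by
      by_contra hcon
      exact hz (hball (by rw [Metric.mem_ball]; linarith))
    simp only [hφz z h3, h0 _ (hmem z)]
  · intro z hz
    by_cases h3 : R / 2 ≤ dist z x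
    · simp only [hφz z h3, h0 _ (hmem z)]
      exact hz
    · apply hball
      rw [Metric.mem_ball]
      have := hdist z
      have h5 := dist_triangle (lam ((z, F (z, c)), φ z)) z x
      simp only
      linarith

end metric

section transfer

variable {X Y : Type} [TopologicalSpace X] [TopologicalSpace Y] [CompactSpace X] [T2Space X]
  [T2Space Y]

/-- Step B: the local property transfers along local homeomorphisms. -/
theorem loc_transfer (x : X) (y : Y) (U : Set X) (V : Set Y) (hU : U ∈ 𝓝 x) (hV : V ∈ 𝓝 y)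
    (h : U ≃ₜ V) (hxU : x ∈ U) (hxy : (h ⟨x, hxU⟩ : Y) = y) (hX : Loc X x) : Loc Y y := by
  intro W' hW'
  -- a closed neighbourhood of `x` inside `U` mapped into `W' ∩ interior V`
  have hP : (Subtype.val '' {u : U | ((h u : V) : Y) ∈ W' ∩ interior V}) ∈ 𝓝 x := by
    have hc : Continuous (fun u : U => ((h u : V) : Y)) := by fun_prop
    have h1 : {u : U | ((h u : V) : Y) ∈ W' ∩ interior V} ∈ 𝓝 (⟨x, hxU⟩ : U) := by
      apply hc.continuousAt.preimage_mem_nhds
      rw [hxy]
      exact inter_mem hW' (interior_mem_nhds.2 hV)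
    have h2 : Subtype.val '' {u : U | ((h u : V) : Y) ∈ W' ∩ interior V} ∈ 𝓝[U] x :=
      (mem_nhds_subtype_iff_nhdsWithin (a := (⟨x, hxU⟩ : U))).1 h1
    exact nhds_of_nhdsWithin_of_nhds hU h2
  obtain ⟨W, ⟨hW, hWc⟩, hWP⟩ := (closed_nhds_basis x).mem_iff.1 hP
  simp only [id] at hWP
  have hWU : W ⊆ U := by
    intro w hw
    obtain ⟨u, _, rfl⟩ := hWP hw
    exact u.2
  have hWin : ∀ u : U, (u : X) ∈ W → ((h u : V) : Y) ∈ W' ∩ interior V := by
    intro u hu
    obtain ⟨u', hu', he⟩ := hWP hu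
    have : u' = u := Subtype.ext he
    rw [← this]; exact hu'
  obtain ⟨g, hg, hgx, hgout, hgin⟩ := hX W hW
  have hgU : ∀ u : U, g u ∈ U := by
    intro u
    by_cases hu : (u : X) ∈ W
    · exact hWU (hgin _ hu)
    · rw [hgout _ hu]; exact u.2
  let G : V → V := fun v => h ⟨g (h.symm v), hgU _⟩
  have hG : Continuous G := by
    apply h.continuous.comp
    apply Continuous.subtype_mk
    exact hg.comp (continuous_subtype_val.comp h.symm.continuous)
  -- the image of `W` in `Y`
  let A : Set Y := {v | ∃ hv : v ∈ V, (h.symm ⟨v, hv⟩ : X) ∈ W}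
  have hA : IsClosed A := by
    have hcomp : IsCompact (Subtype.val ⁻¹' W : Set U) := by
      have : IsCompact W := hWc.isCompact
      rw [Subtype.isCompact_iff, Subtype.image_preimage_coe, inter_eq_right.2 hWU]
      exact this
    have himg : A = (fun u : U => ((h u : V) : Y)) '' (Subtype.val ⁻¹' W : Set U) := by
      ext v
      constructor
      · rintro ⟨hv, hvW⟩
        exact ⟨h.symm ⟨v, hv⟩, hvW, by simp⟩
      · rintro ⟨u, hu, rfl⟩
        exact ⟨(h u).2, by simpa using hu⟩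
    rw [himg]
    exact (hcomp.image (by fun_prop)).isClosed
  have hAV : A ⊆ interior V := by
    rintro v ⟨hv, hvW⟩
    have := hWin _ hvW
    simpa using this.2
  have hAW : A ⊆ W' := by
    rintro v ⟨hv, hvW⟩
    have := hWin _ hvW
    simpa using this.1
  classical
  let g' : Y → Y := fun v => if hv : v ∈ V then (G ⟨v, hv⟩ : Y) else v
  have hg'V : ∀ v (hv : v ∈ V), g' v = G ⟨v, hv⟩ := fun v hv => dif_pos hv
  have hg'A : ∀ v, v ∉ A → g' v = v := by
    intro v hvA
    by_cases hv : v ∈ V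
    · have : (h.symm ⟨v, hv⟩ : X) ∉ W := fun hcon => hvA ⟨hv, hcon⟩
      rw [hg'V v hv]
      show ((h ⟨g (h.symm ⟨v, hv⟩), _⟩ : V) : Y) = v
      have e : (⟨g (h.symm ⟨v, hv⟩), hgU _⟩ : U) = h.symm ⟨v, hv⟩ :=
        Subtype.ext (hgout _ this)
      rw [e]
      simp
    · exact dif_neg hv
  have hg'in : ∀ v ∈ A, g' v ∈ A := by
    rintro v ⟨hv, hvW⟩
    rw [hg'V v hv]
    refine ⟨(G ⟨v, hv⟩).2, ?_⟩
    show (h.symm (h ⟨g (h.symm ⟨v, hv⟩), _⟩) : X) ∈ W
    rw [h.symm_apply_apply]
    exact hgin _ hvW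
  refine ⟨g', ?_, ?_, ?_, ?_⟩
  · rw [continuous_iff_continuousAt]
    intro v
    by_cases hvA : v ∈ A
    · have hvV : V ∈ 𝓝 v := mem_interior_iff_mem_nhds.1 (hAV hvA)
      have hcon : ContinuousOn g' V := by
        rw [continuousOn_iff_continuous_domRestrict]
        have : V.domRestrict g' = fun v : V => (G v : Y) := by
          funext v
          exact hg'V v v.2
        rw [this]
        exact continuous_subtype_val.comp hG
      exact hcon.continuousAt hvV
    · have hev : g' =ᶠ[𝓝 v] id := by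
        filter_upwards [hA.isOpen_compl.mem_nhds hvA] with w hw using hg'A w hw
      exact continuousAt_id.congr hev.symm
  · intro v
    by_cases hv : v ∈ V
    · rw [hg'V v hv]
      intro hcon
      have h1 : G ⟨v, hv⟩ = h ⟨x, hxU⟩ := Subtype.ext (hcon.trans hxy.symm)
      have h2 := h.injective h1
      exact hgx _ (congrArg Subtype.val h2)
    · have : g' v = v := dif_neg hv
      rw [this]
      rintro rfl
      exact hv (mem_of_mem_nhds hV)
  · intro v hv
    exact hg'A v (fun hvA => hv (hAW hvA))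
  · intro v hv
    by_cases hvA : v ∈ A
    · exact hAW (hg'in v hvA)
    · rw [hg'A v hvA]; exact hv

end transfer

section build

variable {Y : Type} [MetricSpace Y] [CompactSpace Y]

/-- Auxiliary cut-off function. -/
noncomputable def cut (n : ℕ) (t : ℝ) : ℝ := max 0 (min 1 (2 ^ (n + 1) * t - 1))

theorem cut_continuous (n : ℕ) : Continuous (cut n) := by
  unfold cut; fun_prop

theorem cut_mem (n : ℕ) (t : ℝ) : cut n t ∈ Icc (0 : ℝ) 1 :=
  ⟨le_max_left _ _, max_le zero_le_one (min_le_left _ _)⟩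

theorem cut_zero (n : ℕ) : cut n 0 = 0 := by
  unfold cut; norm_num

theorem cut_one (n : ℕ) (t : ℝ) (h : 1 ≤ 2 ^ n * t) : cut n t = 1 := by
  unfold cut
  rw [min_eq_left, max_eq_right zero_le_one]
  rw [pow_succ]
  linarith

/-- Successive deformations. -/
noncomputable def FF (lam : (Y × Y) × ℝ → Y) (g : ℕ → Y → Y) : ℕ → Y × ℝ → Y
  | 0, p => p.1
  | n + 1, p => lam ((FF lam g n p, g n (FF lam g n p)), cut n p.2)

/-- Step C: the local property implies pseudo-instability (with the arc as continuum). -/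
theorem pseudoUnstable_of_loc (hL : LEC Y) (y : Y) (hy : Loc Y y) : PseudoUnstable Y y := by
  obtain ⟨D, lam, hD, hdiag, hc, h0, h1, hxx⟩ := hL
  have hsm : ∀ n : ℕ, ∃ δ > 0, ∀ z w : Y, dist z w < δ → (z, w) ∈ D ∧ ∀ t ∈ Icc (0 : ℝ) 1,
      dist (lam ((z, w), t)) z < 1 / 2 / 2 ^ n := fun n =>
    small D lam hD hdiag hc hxx (by positivity)
  choose δ hδ hδ2 using hsm
  let P : ℕ → (Y → Y) → Prop := fun n g => Continuous g ∧ (∀ z, g z ≠ y) ∧
    ∀ z, dist z (g z) < δ n
  have step : ∀ (n : ℕ) (W : Set Y), W ∈ 𝓝 y → ∃ g, P n g ∧ ∀ z, z ∉ W → g z = z := by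
    intro n W hW
    obtain ⟨g, hg, hgy, hgout, hgin⟩ := hy (W ∩ Metric.ball y (δ n / 2))
      (inter_mem hW (Metric.ball_mem_nhds y (half_pos (hδ n))))
    refine ⟨g, ⟨hg, hgy, fun z => ?_⟩, fun z hz => hgout z (fun h => hz h.1)⟩
    by_cases hz : z ∈ W ∩ Metric.ball y (δ n / 2)
    · have e1 := Metric.mem_ball.1 hz.2
      have e2 := Metric.mem_ball.1 (hgin z hz).2
      have e3 := dist_triangle_right z (g z) y
      linarith
    · rw [hgout z hz, dist_self]
      exact hδ n
  have step2 : ∀ (n : ℕ) (g : {g // P n g}), ∃ g' : {g // P (n + 1) g},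
      ∀ z, g'.1 (g.1 z) = g.1 z := by
    rintro n ⟨g, hg, hgy, _⟩
    have hcl : IsClosed (range g) := (isCompact_range hg).isClosed
    have hyr : y ∉ range g := by
      rintro ⟨z, hz⟩
      exact hgy z hz
    obtain ⟨g', hg', hg'2⟩ := step (n + 1) (range g)ᶜ (hcl.isOpen_compl.mem_nhds hyr)
    exact ⟨⟨g', hg'⟩, fun z => hg'2 _ (fun h => h (mem_range_self z))⟩
  obtain ⟨g0, hg0, _⟩ := step 0 univ univ_mem
  choose nx hnx using step2
  let G : ∀ n, {g // P n g} := fun n => Nat.rec ⟨g0, hg0⟩ (fun n g => nx n g) n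
  have hG : ∀ n z, (G (n + 1)).1 ((G n).1 z) = (G n).1 z := fun n z => hnx n (G n) z
  obtain ⟨g, hgdef⟩ : ∃ g : ℕ → Y → Y, ∀ n, g n = (G n).1 := ⟨fun n => (G n).1, fun _ => rfl⟩
  have hgc : ∀ n, Continuous (g n) := fun n => by rw [hgdef]; exact (G n).2.1
  have hgy : ∀ n z, g n z ≠ y := fun n => by rw [hgdef]; exact (G n).2.2.1
  have hgδ : ∀ n z, dist z (g n z) < δ n := fun n => by rw [hgdef]; exact (G n).2.2.2
  have hgg : ∀ n z, g (n + 1) (g n z) = g n z := fun n z => by
    rw [hgdef, hgdef]; exact hG n z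
  have hD2 : ∀ n z, (z, g n z) ∈ D := fun n z => (hδ2 n z _ (hgδ n z)).1
  have hFc : ∀ n, Continuous (FF lam g n) := by
    intro n
    induction n with
    | zero => exact continuous_fst
    | succ n ih =>
      have hpair : Continuous (fun p : Y × ℝ =>
          (((FF lam g n p, g n (FF lam g n p)), cut n p.2) : (Y × Y) × ℝ)) :=
        (ih.prodMk ((hgc n).comp ih)).prodMk ((cut_continuous n).comp continuous_snd)
      exact hc.comp_continuous hpair (fun p => ⟨hD2 n _, mem_univ _⟩)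
  have hFd : ∀ p n, dist (FF lam g n p) (FF lam g (n + 1) p) ≤ 1 / 2 / 2 ^ n := by
    intro p n
    rw [dist_comm]
    exact ((hδ2 n _ _ (hgδ n _)).2 _ (cut_mem n p.2)).le
  have hF1 : ∀ n (p : Y × ℝ), 1 ≤ 2 ^ n * p.2 → FF lam g (n + 1) p = g n (FF lam g n p) := by
    intro n p hp
    show lam ((FF lam g n p, g n (FF lam g n p)), cut n p.2) = _
    rw [cut_one n p.2 hp, h1 _ (hD2 n _)]
  have hF2 : ∀ n (p : Y × ℝ), 1 ≤ 2 ^ n * p.2 → FF lam g (n + 2) p = FF lam g (n + 1) p := by
    intro n p hp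
    have hp2 : 1 ≤ 2 ^ (n + 1) * p.2 := by
      rw [pow_succ]
      linarith
    rw [hF1 (n + 1) p hp2, hF1 n p hp, hgg]
  have hF3 : ∀ n (p : Y × ℝ), 1 ≤ 2 ^ n * p.2 → ∀ m, FF lam g (n + 1 + m) p =
      FF lam g (n + 1) p := by
    intro n p hp m
    induction m with
    | zero => rfl
    | succ m ih =>
      have hp2 : 1 ≤ 2 ^ (n + m) * p.2 := by
        have h2 : (1 : ℝ) ≤ 2 ^ m := one_le_pow₀ (by norm_num)
        have h3 : 0 ≤ 2 ^ n * p.2 := by linarith
        calc (1 : ℝ) ≤ 2 ^ n * p.2 := hp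
          _ ≤ (2 ^ n * p.2) * 2 ^ m := le_mul_of_one_le_right h3 h2
          _ = _ := by ring
      have := hF2 (n + m) p hp2
      rw [← ih]
      have e1 : n + 1 + (m + 1) = n + m + 2 := by ring
      have e2 : n + 1 + m = n + m + 1 := by ring
      rw [e1, e2, this]
  have hF0 : ∀ n z, FF lam g n (z, 0) = z := by
    intro n z
    induction n with
    | zero => rfl
    | succ n ih =>
      show lam ((FF lam g n (z, 0), g n (FF lam g n (z, 0))), cut n 0) = z
      rw [cut_zero, h0 _ (hD2 n _), ih]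
  have hlim : ∀ p, ∃ l, Tendsto (fun n => FF lam g n p) atTop (𝓝 l) := fun p =>
    cauchySeq_tendsto_of_complete (cauchySeq_of_le_geometric_two (C := 1) (hFd p))
  choose L hLim using hlim
  have hLc : Continuous L := by
    have hunif : TendstoUniformly (fun n => FF lam g n) L atTop := by
      rw [Metric.tendstoUniformly_iff]
      intro ε hε
      obtain ⟨N, hN⟩ := exists_pow_lt_of_lt_one hε (by norm_num : (1 / 2 : ℝ) < 1)
      filter_upwards [eventually_ge_atTop N] with n hn p
      have h5 := dist_le_of_le_geometric_two_of_tendsto (C := 1) (hFd p) (hLim p) n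
      rw [dist_comm]
      calc dist (FF lam g n p) (L p) ≤ 1 / 2 ^ n := h5
        _ = (1 / 2 : ℝ) ^ n := by rw [one_div_pow]
        _ ≤ (1 / 2 : ℝ) ^ N := pow_le_pow_of_le_one (by norm_num) (by norm_num) hn
        _ < ε := hN
    exact hunif.continuous (Frequently.of_forall hFc)
  refine ⟨unitInterval, inferInstance, inferInstance, inferInstance, inferInstance, 0,
    fun p => L (p.1, (p.2 : ℝ)), ?_, ?_, ?_⟩
  · exact hLc.comp (by fun_prop)
  · intro z
    have h6 : Tendsto (fun n => FF lam g n (z, 0)) atTop (𝓝 z) := by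
      simp only [hF0]
      exact tendsto_const_nhds
    exact tendsto_nhds_unique (hLim (z, 0)) h6
  · intro z c hca
    have hcpos : (0 : ℝ) < c := by
      rcases c.2.1.lt_or_eq with h | h
      · exact h
      · exact absurd (Subtype.ext h.symm) hca
    obtain ⟨N, hN⟩ := exists_pow_lt_of_lt_one hcpos (by norm_num : (1 / 2 : ℝ) < 1)
    have hN2 : 1 ≤ 2 ^ N * (c : ℝ) := by
      rw [one_div_pow, div_lt_iff₀ (by positivity)] at hN
      linarith
    have h7 : Tendsto (fun m => FF lam g (N + 1 + m) (z, (c : ℝ))) atTop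
        (𝓝 (L (z, (c : ℝ)))) := by
      have := (tendsto_add_atTop_iff_nat (N + 1)).2 (hLim (z, (c : ℝ)))
      simpa only [add_comm] using this
    have h8 : L (z, (c : ℝ)) = FF lam g (N + 1) (z, (c : ℝ)) := by
      have h9 : (fun m => FF lam g (N + 1 + m) (z, (c : ℝ))) =
          fun _ => FF lam g (N + 1) (z, (c : ℝ)) := by
        funext m
        exact hF3 N (z, (c : ℝ)) hN2 m
      rw [h9] at h7
      exact tendsto_nhds_unique h7 tendsto_const_nhds
    show L (z, (c : ℝ)) ≠ y
    rw [h8, hF1 N (z, (c : ℝ)) hN2]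
    exact hgy _ _

end build

section poly

variable {n : ℕ} (K : Geometry.SimplicialComplex ℝ (EuclideanSpace ℝ (Fin n)))
  (V : Finset (EuclideanSpace ℝ (Fin n)))

/-- Barycentric coordinates of the points of the complex. -/
def Del : Set (V → ℝ) :=
  {w | (∀ v, 0 ≤ w v) ∧ ∑ v, w v = 1 ∧
    ∃ s ∈ K.faces, ∀ v : V, w v ≠ 0 → (v : EuclideanSpace ℝ (Fin n)) ∈ s}

open scoped Classical in
/-- Extension by zero. -/
noncomputable def wt (w : V → ℝ) (y : EuclideanSpace ℝ (Fin n)) : ℝ :=
  if h : y ∈ V then w ⟨y, h⟩ else 0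

theorem wt_coe (w : V → ℝ) (v : V) : wt V w v = w v := by
  unfold wt
  rw [dif_pos v.2]

variable {V}

theorem sum_wt {s : Finset (EuclideanSpace ℝ (Fin n))} (hs : s ⊆ V) (w : V → ℝ)
    (hw : ∀ v : V, w v ≠ 0 → (v : EuclideanSpace ℝ (Fin n)) ∈ s) :
    ∑ v, w v = ∑ y ∈ s, wt V w y := by
  have h1 : ∑ v, w v = ∑ y ∈ V, wt V w y := by
    rw [← Finset.sum_coe_sort V]
    exact Finset.sum_congr rfl (fun v _ => (wt_coe V w v).symm)
  rw [h1]
  symm
  apply Finset.sum_subset hs
  intro y hyV hys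
  by_contra hne
  apply hys
  have := hw ⟨y, hyV⟩ (by rwa [← wt_coe V w ⟨y, hyV⟩])
  exact this

theorem sum_wt_smul {s : Finset (EuclideanSpace ℝ (Fin n))} (hs : s ⊆ V) (w : V → ℝ)
    (hw : ∀ v : V, w v ≠ 0 → (v : EuclideanSpace ℝ (Fin n)) ∈ s) :
    ∑ v, w v • (v : EuclideanSpace ℝ (Fin n)) = ∑ y ∈ s, wt V w y • y := by
  have h1 : ∑ v, w v • (v : EuclideanSpace ℝ (Fin n)) = ∑ y ∈ V, wt V w y • y := by
    rw [← Finset.sum_coe_sort V]
    exact Finset.sum_congr rfl (fun v _ => by rw [wt_coe V w v])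
  rw [h1]
  symm
  apply Finset.sum_subset hs
  intro y hyV hys
  have : wt V w y = 0 := by
    by_contra hne
    apply hys
    exact hw ⟨y, hyV⟩ (by rwa [← wt_coe V w ⟨y, hyV⟩])
  rw [this, zero_smul]

theorem Del_compact (hfin : K.faces.Finite) : IsCompact (Del K V) := by
  have h1 : Del K V = stdSimplex ℝ V ∩ ⋃ s ∈ K.faces,
      {w : V → ℝ | ∀ v : V, (v : EuclideanSpace ℝ (Fin n)) ∉ s → w v = 0} := by
    ext w
    simp only [Del, stdSimplex, mem_ofPred_eq, mem_inter_iff, mem_iUnion, exists_prop]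
    constructor
    · rintro ⟨h1, h2, s, hs, h3⟩
      exact ⟨⟨h1, h2⟩, s, hs, fun v hv => by_contra fun hne => hv (h3 v hne)⟩
    · rintro ⟨⟨h1, h2⟩, s, hs, h3⟩
      exact ⟨h1, h2, s, hs, fun v hv => by_contra fun hne => hv (h3 v hne)⟩
  rw [h1]
  apply (isCompact_stdSimplex ℝ V).inter_right
  apply hfin.isClosed_biUnion
  intro s _
  simp only [ofPred_forall]
  apply isClosed_iInter
  intro v
  apply isClosed_iInter
  intro _
  exact isClosed_eq (continuous_apply v) continuous_const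

theorem bary_mem (hV : ∀ s ∈ K.faces, s ⊆ V) (w : V → ℝ) (hw : w ∈ Del K V) :
    ∑ v, w v • (v : EuclideanSpace ℝ (Fin n)) ∈ K.space := by
  obtain ⟨h1, h2, s, hs, h3⟩ := hw
  rw [Geometry.SimplicialComplex.mem_space_iff]
  refine ⟨s, hs, ?_⟩
  rw [sum_wt_smul (hV s hs) w h3]
  apply (convex_convexHull ℝ (s : Set (EuclideanSpace ℝ (Fin n)))).sum_mem
  · intro y hy
    have := h1 ⟨y, hV s hs hy⟩
    rwa [← wt_coe V w ⟨y, hV s hs hy⟩] at this
  · rw [← sum_wt (hV s hs) w h3, h2]
  · intro y hy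
    exact subset_convexHull ℝ _ hy

theorem exists_weights {s : Finset (EuclideanSpace ℝ (Fin n))} {x : EuclideanSpace ℝ (Fin n)}
    (hx : x ∈ convexHull ℝ (s : Set (EuclideanSpace ℝ (Fin n)))) :
    ∃ u : EuclideanSpace ℝ (Fin n) → ℝ, (∀ y ∈ s, 0 ≤ u y) ∧ ∑ y ∈ s, u y = 1 ∧
      ∑ y ∈ s, u y • y = x := by
  rw [Finset.convexHull_eq] at hx
  obtain ⟨u, h1, h2, h3⟩ := hx
  refine ⟨u, h1, h2, ?_⟩
  rw [← h3, Finset.centerMass_eq_of_sum_1 _ _ h2]
  rfl

theorem bary_surj (hV : ∀ s ∈ K.faces, s ⊆ V) (x : EuclideanSpace ℝ (Fin n)) (hx : x ∈ K.space) :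
    ∃ w ∈ Del K V, ∑ v, w v • (v : EuclideanSpace ℝ (Fin n)) = x := by
  classical
  rw [Geometry.SimplicialComplex.mem_space_iff] at hx
  obtain ⟨s, hs, hxs⟩ := hx
  obtain ⟨u, h1, h2, h3⟩ := exists_weights hxs
  let w : V → ℝ := fun v => if (v : EuclideanSpace ℝ (Fin n)) ∈ s then u v else 0
  have hw : ∀ v : V, w v ≠ 0 → (v : EuclideanSpace ℝ (Fin n)) ∈ s := by
    intro v hv
    by_contra hcon
    exact hv (if_neg hcon)
  have hwt : ∀ y ∈ s, wt V w y = u y := by
    intro y hy
    have : wt V w (⟨y, hV s hs hy⟩ : V) = w ⟨y, hV s hs hy⟩ := wt_coe V w _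
    rw [show wt V w y = w ⟨y, hV s hs hy⟩ from this]
    exact if_pos hy
  refine ⟨w, ⟨?_, ?_, s, hs, hw⟩, ?_⟩
  · intro v
    by_cases hv : (v : EuclideanSpace ℝ (Fin n)) ∈ s
    · show 0 ≤ w v
      rw [show w v = u v from if_pos hv]
      exact h1 _ hv
    · show 0 ≤ w v
      rw [show w v = 0 from if_neg hv]
  · rw [sum_wt (hV s hs) w hw, Finset.sum_congr rfl hwt, h2]
  · rw [sum_wt_smul (hV s hs) w hw, ← h3]
    exact Finset.sum_congr rfl (fun y hy => by rw [hwt y hy])

theorem bary_inj (hV : ∀ s ∈ K.faces, s ⊆ V) (w w' : V → ℝ) (hw : w ∈ Del K V)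
    (hw' : w' ∈ Del K V) (he : ∑ v, w v • (v : EuclideanSpace ℝ (Fin n)) =
      ∑ v, w' v • (v : EuclideanSpace ℝ (Fin n))) : w = w' := by
  classical
  -- it suffices to compare with weights on the intersection of the two carriers
  have key : ∀ (w : V → ℝ) (s t : Finset (EuclideanSpace ℝ (Fin n))), s ∈ K.faces → t ⊆ s →
      (∀ v : V, w v ≠ 0 → (v : EuclideanSpace ℝ (Fin n)) ∈ s) → ∑ v, w v = 1 →
      ∀ u : EuclideanSpace ℝ (Fin n) → ℝ, ∑ y ∈ t, u y = 1 →
      ∑ y ∈ t, u y • y = ∑ v, w v • (v : EuclideanSpace ℝ (Fin n)) →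
      ∀ v : V, w v = if (v : EuclideanSpace ℝ (Fin n)) ∈ t then u v else 0 := by
    intro w s t hs hts hsupp hsum u hu1 hu2 v
    let u' : EuclideanSpace ℝ (Fin n) → ℝ := fun y => if y ∈ t then u y else 0
    have e1 : ∑ y ∈ s, u' y = ∑ y ∈ t, u y := by
      rw [← Finset.sum_subset hts (fun y _ hy => if_neg hy)]
      exact Finset.sum_congr rfl (fun y hy => if_pos hy)
    have e2 : ∑ y ∈ s, u' y • y = ∑ y ∈ t, u y • y := by
      rw [← Finset.sum_subset hts (fun y _ hy => by
        rw [show u' y = 0 from if_neg hy, zero_smul])]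
      exact Finset.sum_congr rfl (fun y hy => by rw [show u' y = u y from if_pos hy])
    have h1 := (K.indep hs).eq_of_sum_eq_sum_subtype (w₁ := wt V w) (w₂ := u')
      (by rw [← sum_wt (hV s hs) w hsupp, hsum, e1, hu1])
      (by rw [← sum_wt_smul (hV s hs) w hsupp, e2, hu2])
    by_cases hv : (v : EuclideanSpace ℝ (Fin n)) ∈ s
    · have := h1 v hv
      rw [wt_coe] at this
      exact this
    · have h0 : w v = 0 := by
        by_contra hne
        exact hv (hsupp v hne)
      rw [h0, if_neg (fun h => hv (hts h))]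
  obtain ⟨h1, h2, s, hs, h3⟩ := hw
  obtain ⟨h1', h2', s', hs', h3'⟩ := hw'
  have hx : ∑ v, w v • (v : EuclideanSpace ℝ (Fin n)) ∈
      convexHull ℝ ((s ∩ s' : Finset (EuclideanSpace ℝ (Fin n))) :
        Set (EuclideanSpace ℝ (Fin n))) := by
    rw [Finset.coe_inter]
    apply K.inter_subset_convexHull hs hs'
    have hmem : ∀ (w : V → ℝ) (s : Finset (EuclideanSpace ℝ (Fin n))), s ∈ K.faces →
        (∀ v, 0 ≤ w v) → ∑ v, w v = 1 →
        (∀ v : V, w v ≠ 0 → (v : EuclideanSpace ℝ (Fin n)) ∈ s) →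
        ∑ v, w v • (v : EuclideanSpace ℝ (Fin n)) ∈
          convexHull ℝ (s : Set (EuclideanSpace ℝ (Fin n))) := by
      intro w s hs h1 h2 h3
      rw [sum_wt_smul (hV s hs) w h3]
      apply (convex_convexHull ℝ (s : Set (EuclideanSpace ℝ (Fin n)))).sum_mem
      · intro y hy
        have := h1 ⟨y, hV s hs hy⟩
        rwa [← wt_coe V w ⟨y, hV s hs hy⟩] at this
      · rw [← sum_wt (hV s hs) w h3, h2]
      · intro y hy
        exact subset_convexHull ℝ _ hy
    exact ⟨hmem w s hs h1 h2 h3, by rw [he]; exact hmem w' s' hs' h1' h2' h3'⟩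
  obtain ⟨u, _, hu1, hu2⟩ := exists_weights hx
  have k1 := key w s (s ∩ s') hs Finset.inter_subset_left h3 h2 u hu1 hu2
  have k2 := key w' s' (s ∩ s') hs' Finset.inter_subset_right h3' h2' u hu1 (hu2.trans he)
  funext v
  rw [k1, k2]

/-- The underlying space is homeomorphic to the set of barycentric coordinates. -/
theorem space_homeo (hfin : K.faces.Finite) (hV : ∀ s ∈ K.faces, s ⊆ V) :
    Nonempty (Del K V ≃ₜ K.space) := by
  have : CompactSpace (Del K V) := isCompact_iff_compactSpace.1 (Del_compact K hfin)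
  let f : Del K V → K.space := fun w => ⟨∑ v, w.1 v • (v : EuclideanSpace ℝ (Fin n)),
    bary_mem K hV w.1 w.2⟩
  have hf : Continuous f := by
    apply Continuous.subtype_mk
    apply continuous_finsetSum
    intro v _
    exact ((continuous_apply v).comp continuous_subtype_val).smul continuous_const
  have hbij : Function.Bijective f := by
    constructor
    · intro w w' h
      exact Subtype.ext (bary_inj K hV _ _ w.2 w'.2 (congrArg Subtype.val h))
    · intro x
      obtain ⟨w, hw, h⟩ := bary_surj K hV x.1 x.2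
      exact ⟨⟨w, hw⟩, Subtype.ext h⟩
  exact ⟨Continuous.homeoOfEquivCompactToT2 (f := Equiv.ofBijective f hbij) hf⟩

end poly

section lec

variable {n : ℕ} (K : Geometry.SimplicialComplex ℝ (EuclideanSpace ℝ (Fin n)))
  (V : Finset (EuclideanSpace ℝ (Fin n)))

/-- First time parameter. -/
noncomputable def ta (t : ℝ) : ℝ := max 0 (min 1 (2 * t))

/-- Second time parameter. -/
noncomputable def tb (t : ℝ) : ℝ := max 0 (min 1 (2 * t - 1))

theorem ta_mem (t : ℝ) : ta t ∈ Icc (0 : ℝ) 1 :=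
  ⟨le_max_left _ _, max_le zero_le_one (min_le_left _ _)⟩

theorem tb_mem (t : ℝ) : tb t ∈ Icc (0 : ℝ) 1 :=
  ⟨le_max_left _ _, max_le zero_le_one (min_le_left _ _)⟩

theorem tb_le_ta (t : ℝ) : tb t ≤ ta t :=
  max_le_max le_rfl (min_le_min le_rfl (by linarith))

theorem tb_or_ta (t : ℝ) : tb t = 0 ∨ ta t = 1 := by
  rcases le_total t (1 / 2) with h | h
  · left
    unfold tb
    rw [max_eq_left]
    exact (min_le_right _ _).trans (by linarith)
  · right
    unfold ta
    rw [min_eq_left (by linarith), max_eq_right zero_le_one]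

variable {V}

/-- Total mass of the coordinatewise minimum. -/
noncomputable def sg (w w' : V → ℝ) : ℝ := ∑ v, min (w v) (w' v)

/-- The deformation from `w` to `w'` through the normalised minimum. -/
noncomputable def path (w w' : V → ℝ) (t : ℝ) : V → ℝ := fun v =>
  (1 - ta t) * w v + (ta t - tb t) * (min (w v) (w' v) / sg w w') + tb t * w' v

theorem path_mem {w w' : V → ℝ} (hw : w ∈ Del K V) (hw' : w' ∈ Del K V) (hs : 0 < sg w w')
    (t : ℝ) : path w w' t ∈ Del K V := by
  obtain ⟨h1, h2, s, hs1, h3⟩ := hw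
  obtain ⟨h1', h2', s', hs1', h3'⟩ := hw'
  have ha := ta_mem t
  have hb := tb_mem t
  have hab := tb_le_ta t
  have hmin : ∀ v, 0 ≤ min (w v) (w' v) / sg w w' := fun v =>
    div_nonneg (le_min (h1 v) (h1' v)) hs.le
  refine ⟨?_, ?_, ?_⟩
  · intro v
    have e1 := mul_nonneg (sub_nonneg.2 ha.2) (h1 v)
    have e2 := mul_nonneg (sub_nonneg.2 hab) (hmin v)
    have e3 := mul_nonneg hb.1 (h1' v)
    unfold path
    linarith
  · unfold path
    rw [Finset.sum_add_distrib, Finset.sum_add_distrib, ← Finset.mul_sum, ← Finset.mul_sum,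
      ← Finset.mul_sum, ← Finset.sum_div, h2, h2']
    have : (∑ v, min (w v) (w' v)) / sg w w' = 1 := div_self hs.ne'
    rw [this]
    ring
  · rcases tb_or_ta t with h | h
    · refine ⟨s, hs1, fun v hv => h3 v ?_⟩
      intro h0
      apply hv
      unfold path
      rw [h, h0, min_eq_left (h1' v)]
      ring
    · refine ⟨s', hs1', fun v hv => h3' v ?_⟩
      intro h0
      apply hv
      unfold path
      rw [h, h0, min_eq_right (h1 v)]
      ring

theorem Del_LEC : LEC (Del K V) := by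
  classical
  let D : Set (Del K V × Del K V) := {p | 0 < sg p.1.1 p.2.1}
  have hsgc : Continuous (fun p : Del K V × Del K V => sg p.1.1 p.2.1) := by
    unfold sg
    apply continuous_finsetSum
    intro v _
    exact ((continuous_apply v).comp (continuous_subtype_val.comp continuous_fst)).min
      ((continuous_apply v).comp (continuous_subtype_val.comp continuous_snd))
  let lam : (Del K V × Del K V) × ℝ → Del K V := fun q =>
    if h : 0 < sg q.1.1.1 q.1.2.1 then ⟨path q.1.1.1 q.1.2.1 q.2, path_mem K q.1.1.2 q.1.2.2 h _⟩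
    else q.1.1
  have hlam : ∀ q : (Del K V × Del K V) × ℝ, 0 < sg q.1.1.1 q.1.2.1 →
      (lam q : V → ℝ) = path q.1.1.1 q.1.2.1 q.2 := by
    intro q hq
    have h1 : lam q = ⟨path q.1.1.1 q.1.2.1 q.2, path_mem K q.1.1.2 q.1.2.2 hq _⟩ := dif_pos hq
    rw [h1]
  have hself : ∀ x : Del K V, sg x.1 x.1 = 1 := by
    intro x
    unfold sg
    simp only [min_self]
    exact x.2.2.1
  refine ⟨D, lam, isOpen_lt continuous_const hsgc, ?_, ?_, ?_, ?_, ?_⟩
  · intro x
    show 0 < sg x.1 x.1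
    rw [hself]
    exact one_pos
  · rw [Topology.IsInducing.subtypeVal.continuousOn_iff]
    have hpath : ContinuousOn (fun q : (Del K V × Del K V) × ℝ => path q.1.1.1 q.1.2.1 q.2)
        (D ×ˢ univ) := by
      rw [continuousOn_pi]
      intro v
      have c1 : Continuous (fun q : (Del K V × Del K V) × ℝ => q.1.1.1 v) :=
        (continuous_apply v).comp (continuous_subtype_val.comp
          (continuous_fst.comp continuous_fst))
      have c2 : Continuous (fun q : (Del K V × Del K V) × ℝ => q.1.2.1 v) :=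
        (continuous_apply v).comp (continuous_subtype_val.comp
          (continuous_snd.comp continuous_fst))
      have c3 : Continuous (fun q : (Del K V × Del K V) × ℝ => ta q.2) := by
        unfold ta; fun_prop
      have c4 : Continuous (fun q : (Del K V × Del K V) × ℝ => tb q.2) := by
        unfold tb; fun_prop
      have c5 : Continuous (fun q : (Del K V × Del K V) × ℝ => sg q.1.1.1 q.1.2.1) :=
        hsgc.comp continuous_fst
      have c6 : ContinuousOn (fun q : (Del K V × Del K V) × ℝ =>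
          min (q.1.1.1 v) (q.1.2.1 v) / sg q.1.1.1 q.1.2.1) (D ×ˢ univ) :=
        (c1.min c2).continuousOn.div c5.continuousOn (fun q hq => ne_of_gt hq.1)
      exact (((continuous_const.sub c3).mul c1).continuousOn.add
        ((c3.sub c4).continuousOn.mul c6)).add (c4.mul c2).continuousOn
    exact hpath.congr (fun q hq => hlam q hq.1)
  · intro p hp
    apply Subtype.ext
    rw [hlam (p, 0) hp]
    have e1 : ta 0 = 0 := by unfold ta; norm_num
    have e2 : tb 0 = 0 := by unfold tb; norm_num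
    funext v
    simp only [path, e1, e2]
    ring
  · intro p hp
    apply Subtype.ext
    rw [hlam (p, 1) hp]
    have e1 : ta 1 = 1 := by unfold ta; norm_num
    have e2 : tb 1 = 1 := by unfold tb; norm_num
    funext v
    simp only [path, e1, e2]
    ring
  · intro x t
    apply Subtype.ext
    rw [hlam ((x, x), t) (by simp only [hself]; exact one_pos)]
    funext v
    simp only [path, hself, min_self, div_one]
    ring

theorem LEC_of_homeo {X Y : Type} [TopologicalSpace X] [TopologicalSpace Y] (e : X ≃ₜ Y)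
    (hY : LEC Y) : LEC X := by
  obtain ⟨D, lam, hD, hdiag, hc, h0, h1, hxx⟩ := hY
  refine ⟨{p | (e p.1, e p.2) ∈ D}, fun q => e.symm (lam ((e q.1.1, e q.1.2), q.2)), ?_, ?_, ?_,
    ?_, ?_, ?_⟩
  · exact hD.preimage (by fun_prop)
  · intro x
    exact hdiag _
  · apply e.symm.continuous.comp_continuousOn
    apply hc.comp (Continuous.continuousOn (by fun_prop))
    rintro q hq
    exact ⟨hq.1, mem_univ _⟩
  · intro p hp
    simp only
    rw [h0 _ hp]
    simp
  · intro p hp
    simp only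
    rw [h1 _ hp]
    simp
  · intro x t
    simp only
    rw [hxx]
    simp

end lec

theorem IsPolyhedron.homeo {X : Type} [TopologicalSpace X] (h : IsPolyhedron X) :
    ∃ (n : ℕ) (K : Geometry.SimplicialComplex ℝ (EuclideanSpace ℝ (Fin n)))
      (V : Finset (EuclideanSpace ℝ (Fin n))), IsCompact (Del K V) ∧
      Nonempty (X ≃ₜ Del K V) := by
  classical
  obtain ⟨n, K, hfin, _, ⟨e⟩⟩ := h
  obtain ⟨e'⟩ := space_homeo K (V := hfin.toFinset.biUnion id) hfin (fun s hs => by
    intro v hv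
    rw [Finset.mem_biUnion]
    exact ⟨s, hfin.mem_toFinset.2 hs, hv⟩)
  exact ⟨n, K, _, Del_compact K hfin, ⟨e.trans e'.symm⟩⟩

/-- **Q2.** For polyhedra, pseudo-instability is a local property. -/
theorem result (X Y : Type) [TopologicalSpace X] [TopologicalSpace Y] (hX : IsPolyhedron X)
    (hY : IsPolyhedron Y) (x : X) (y : Y) (U : Set X) (V : Set Y) (hU : U ∈ 𝓝 x) (hV : V ∈ 𝓝 y)
    (h : U ≃ₜ V) (hxU : x ∈ U) (hxy : (h ⟨x, hxU⟩ : Y) = y) (hx : PseudoUnstable X x) :
    PseudoUnstable Y y := by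
  obtain ⟨n, K, W, hK, ⟨e⟩⟩ := hX.homeo
  obtain ⟨n', K', W', hK', ⟨e'⟩⟩ := hY.homeo
  have : CompactSpace (Del K W) := isCompact_iff_compactSpace.1 hK
  have : CompactSpace (Del K' W') := isCompact_iff_compactSpace.1 hK'
  have hLX : LEC X := LEC_of_homeo e (Del_LEC K)
  have hLY : LEC Y := LEC_of_homeo e' (Del_LEC K')
  have : TopologicalSpace.MetrizableSpace X := e.isEmbedding.metrizableSpace
  have : TopologicalSpace.MetrizableSpace Y := e'.isEmbedding.metrizableSpace
  have : CompactSpace X := e.symm.compactSpace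
  have : CompactSpace Y := e'.symm.compactSpace
  let _ : MetricSpace X := TopologicalSpace.metrizableSpaceMetric X
  let _ : MetricSpace Y := TopologicalSpace.metrizableSpaceMetric Y
  exact pseudoUnstable_of_loc hLY y
    (loc_transfer x y U V hU hV h hxU hxy (loc_of_pseudoUnstable hLX x hx))

end Pool.Agent.Results.MP_a217de_gt.PolyhedraLocal
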